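import Mathlib
import Pool.Agent.V11171.Rich

/-!
MP_4402c4_co, Q1: the equality 2D(u) = sum T(n) fails for some recurrent word with infinitely many
palindromic factors whose language is not closed under reversal.
-/

set_option autoImplicit false

namespace Pool.Agent.Results.MP_4402c4_co.NegativeSum

open Pool.Agent.V11171.Rich Filter Topology

/-- the set of factors of length `n` -/
def factors {A : Type} (u : ℕ → A) (n : ℕ) : Set (List A) := {v | ∃ i, v = factor u i n}

/-- factor complexity -/
noncomputable def C {A : Type} (u : ℕ → A) (n : ℕ) : ℕ := (factors u n).ncard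

/-- palindromic complexity -/
noncomputable def P {A : Type} (u : ℕ → A) (n : ℕ) : ℕ :=
  {v | v ∈ factors u n ∧ v.reverse = v}.ncard

noncomputable def T {A : Type} (u : ℕ → A) (n : ℕ) : ℤ :=
  (C u (n + 1) : ℤ) - C u n + 2 - P u (n + 1) - P u n

/-- The defect of a finite word. -/
noncomputable def D {A : Type} (w : List A) : ℤ := (w.length : ℤ) + 1 - (pals w).ncard

/-- The defect of an infinite word: the supremum of the defects of its prefixes. -/
noncomputable def defect {A : Type} (u : ℕ → A) : EReal :=
  ⨆ n : ℕ, (((D (factor u 0 n) : ℤ) : ℝ) : EReal)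

def Recurrent {A : Type} (u : ℕ → A) : Prop :=
  ∀ i n N : ℕ, ∃ j, N ≤ j ∧ factor u j n = factor u i n

def ClosedUnderReversal {A : Type} (u : ℕ → A) : Prop :=
  ∀ i n : ℕ, ∃ j, factor u j n = (factor u i n).reverse

/-- block types: `0` stands for the block `U`, the others for constant blocks -/
def tau (n : ℕ) : ℕ :=
  if h : n = 0 then 0
  else if tau (n / 6) = 0 then (if n % 6 = 5 then 0 else n % 6) else tau (n / 6)
termination_by n
decreasing_by all_goals omega

theorem tau_step (t e : ℕ) (he : e < 6) :
    tau (6 * t + e) = if tau t = 0 then (if e = 5 then 0 else e) else tau t := by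
  by_cases h : 6 * t + e = 0
  · have h1 : t = 0 := by omega
    have h2 : e = 0 := by omega
    subst h1 h2
    simp [tau]
  · rw [tau]
    have h1 : (6 * t + e) / 6 = t := by omega
    have h2 : (6 * t + e) % 6 = e := by omega
    rw [dif_neg h, h1, h2]

theorem tau_zero : tau 0 = 0 := by simp [tau]

theorem tau_lt (n : ℕ) : tau n < 5 := by
  induction n using Nat.strong_induction_on with
  | _ n ih =>
    by_cases h : n = 0
    · subst h; rw [tau_zero]; omega
    · have h1 : n = 6 * (n / 6) + n % 6 := by omega
      rw [h1, tau_step _ _ (by omega)]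
      have := ih (n / 6) (by omega)
      split_ifs <;> omega

theorem tau_block (r t s : ℕ) (hs : s < 6 ^ r) :
    tau (6 ^ r * t + s) = if tau t = 0 then tau s else tau t := by
  induction r generalizing s with
  | zero =>
    have : s = 0 := by simpa using hs
    subst this
    simp only [pow_zero, one_mul, add_zero, tau_zero]
    split_ifs with h
    · exact h
    · rfl
  | succ r ih =>
    have h1 : s = 6 * (s / 6) + s % 6 := by omega
    have h2 : s / 6 < 6 ^ r := by rw [pow_succ] at hs; omega
    have h3 : 6 ^ (r + 1) * t + s = 6 * (6 ^ r * t + s / 6) + s % 6 := by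
      rw [pow_succ]
      have : 6 ^ r * 6 * t = 6 * (6 ^ r * t) := by ring
      rw [this]
      omega
    rw [h3, tau_step _ _ (by omega), ih _ h2]
    by_cases h4 : tau t = 0
    · rw [if_pos h4, if_pos h4]
      conv_rhs => rw [h1]
      rw [tau_step _ _ (by omega)]
    · rw [if_neg h4, if_neg h4, if_neg h4]

theorem tau_adj (t : ℕ) : (tau t ≠ 0 ∧ tau (t + 1) = tau t) ∨ tau (t + 1) = (tau t + 1) % 5 := by
  induction t using Nat.strong_induction_on with
  | _ t ih =>
    have h1 : t = 6 * (t / 6) + t % 6 := by omega
    by_cases h5 : t % 6 = 5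
    · have h2 : t + 1 = 6 * (t / 6 + 1) + 0 := by omega
      have h3 : t = 6 * (t / 6) + 5 := by omega
      have e1 : tau t = tau (t / 6) := by
        conv_lhs => rw [h3]
        rw [tau_step _ _ (by omega)]
        split_ifs <;> omega
      have e2 : tau (t + 1) = tau (t / 6 + 1) := by
        rw [h2, tau_step _ _ (by omega)]
        split_ifs <;> omega
      have := ih (t / 6) (by omega)
      rw [e1, e2]
      exact this
    · have h2 : t + 1 = 6 * (t / 6) + (t % 6 + 1) := by omega
      have e1 : tau t = if tau (t / 6) = 0 then t % 6 else tau (t / 6) := by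
        conv_lhs => rw [h1]
        rw [tau_step _ _ (by omega), if_neg h5]
      have e2 : tau (t + 1) = if tau (t / 6) = 0 then (if t % 6 + 1 = 5 then 0 else t % 6 + 1)
          else tau (t / 6) := by
        rw [h2, tau_step _ _ (by omega)]
      rw [e1, e2]
      split_ifs <;> omega

/-- coding -/
def cod (x : ℕ) : Fin 4 := if x ≤ 1 then 0 else if x = 2 then 1 else if x = 3 then 2 else 3

/-- the word: `u_0 = a`, `u_{r+1} = u_r a^{6^r} b^{6^r} c^{6^r} d^{6^r} u_r` -/
def u (n : ℕ) : Fin 4 := cod (tau n)

def win (M x y s : ℕ) : List (Fin 4) := (List.range M).map fun j =>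
  if s + j < M then cod (if x = 0 then tau (s + j) else x)
  else cod (if y = 0 then tau (s + j - M) else y)

theorem factor_win (r t s : ℕ) (hs : s < 6 ^ r) :
    factor u (6 ^ r * t + s) (6 ^ r) = win (6 ^ r) (tau t) (tau (t + 1)) s := by
  unfold factor win
  apply List.map_congr_left
  intro j hj
  rw [List.mem_range] at hj
  simp only [u]
  split_ifs with h1 h2 h3
  · rw [add_assoc, tau_block r t _ h1, if_pos h2]
  · rw [add_assoc, tau_block r t _ h1, if_neg h2]
  · have : 6 ^ r * t + s + j = 6 ^ r * (t + 1) + (s + j - 6 ^ r) := by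
      rw [mul_add, mul_one]; omega
    rw [this, tau_block r _ _ (by omega), if_pos h3]
  · have : 6 ^ r * t + s + j = 6 ^ r * (t + 1) + (s + j - 6 ^ r) := by
      rw [mul_add, mul_one]; omega
    rw [this, tau_block r _ _ (by omega), if_neg h3]

theorem win_const (M x y s : ℕ) (hx : x ≠ 0) : win M x x s = win M x y 0 := by
  unfold win
  apply List.map_congr_left
  intro j hj
  rw [List.mem_range] at hj
  have h0 : 0 + j < M := by omega
  simp only [if_neg hx, if_pos h0]
  split_ifs <;> rfl

theorem factors_subset (r : ℕ) : factors u (6 ^ r) ⊆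
    (((Finset.range 5) ×ˢ (Finset.range (6 ^ r))).image
      (fun p => win (6 ^ r) p.1 ((p.1 + 1) % 5) p.2) : Finset (List (Fin 4))) := by
  rintro v ⟨i, rfl⟩
  have hpos : 0 < 6 ^ r := by positivity
  have hi : i = 6 ^ r * (i / 6 ^ r) + i % 6 ^ r := (Nat.div_add_mod i (6 ^ r)).symm
  have hs : i % 6 ^ r < 6 ^ r := Nat.mod_lt _ hpos
  rw [Finset.coe_image]
  rw [hi, factor_win r _ _ hs]
  rcases tau_adj (i / 6 ^ r) with ⟨h1, h2⟩ | h
  · refine ⟨(tau (i / 6 ^ r), 0), ?_, ?_⟩
    · simp [tau_lt]
    · simp only
      rw [h2]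
      exact (win_const _ _ _ _ h1).symm
  · refine ⟨(tau (i / 6 ^ r), i % 6 ^ r), ?_, ?_⟩
    · simp [tau_lt, hs]
    · simp only
      rw [h]

theorem C_le (r : ℕ) : C u (6 ^ r) ≤ 5 * 6 ^ r := by
  unfold C
  refine (Set.ncard_le_ncard (factors_subset r) (Finset.finite_toSet _)).trans ?_
  rw [Set.ncard_coe_finset]
  refine Finset.card_image_le.trans ?_
  simp

theorem factors_finite (n : ℕ) : (factors u n).Finite := by
  have : factors u n ⊆ {l : List (Fin 4) | l.length = n} := by
    rintro v ⟨i, rfl⟩
    simp [factor]
  exact (List.finite_length_eq (Fin 4) n).subset this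

theorem const_factor (x : Fin 4) (n : ℕ) : List.replicate n x ∈ factors u n := by
  have hn : n < 6 ^ n := Nat.lt_pow_self (by norm_num)
  have key : ∀ y : ℕ, tau y ≠ 0 → List.replicate n (cod (tau y)) ∈ factors u n := by
    intro y hy
    refine ⟨6 ^ n * y, ?_⟩
    symm
    rw [List.eq_replicate_iff]
    refine ⟨by simp [factor], ?_⟩
    intro b hb
    unfold factor at hb
    rw [List.mem_map] at hb
    obtain ⟨j, hj, rfl⟩ := hb
    rw [List.mem_range] at hj
    simp only [u]
    rw [tau_block n y j (by omega), if_neg hy]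
  have t1 : tau 1 = 1 := by
    have := tau_step 0 1 (by norm_num)
    rw [tau_zero] at this
    simpa using this
  have t2 : tau 2 = 2 := by
    have := tau_step 0 2 (by norm_num)
    rw [tau_zero] at this
    simpa using this
  have t3 : tau 3 = 3 := by
    have := tau_step 0 3 (by norm_num)
    rw [tau_zero] at this
    simpa using this
  have t4 : tau 4 = 4 := by
    have := tau_step 0 4 (by norm_num)
    rw [tau_zero] at this
    simpa using this
  fin_cases x
  · have := key 1 (by rw [t1]; norm_num)
    rw [t1] at this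
    exact this
  · have := key 2 (by rw [t2]; norm_num)
    rw [t2] at this
    exact this
  · have := key 3 (by rw [t3]; norm_num)
    rw [t3] at this
    exact this
  · have := key 4 (by rw [t4]; norm_num)
    rw [t4] at this
    exact this

theorem P_ge (n : ℕ) (hn : 1 ≤ n) : 4 ≤ P u n := by
  unfold P
  have hsub : (((Finset.univ : Finset (Fin 4)).image (fun x => List.replicate n x) :
      Finset (List (Fin 4))) : Set (List (Fin 4))) ⊆ {v | v ∈ factors u n ∧ v.reverse = v} := by
    rw [Finset.coe_image]
    rintro v ⟨x, -, rfl⟩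
    exact ⟨const_factor x n, List.reverse_replicate⟩
  have hfin : {v | v ∈ factors u n ∧ v.reverse = v}.Finite :=
    (factors_finite n).subset fun v hv => hv.1
  have := Set.ncard_le_ncard hsub hfin
  rw [Set.ncard_coe_finset, Finset.card_image_of_injective] at this
  · simpa using this
  · intro x y hxy
    simp only at hxy
    have h1 := congrArg (fun l => l.head?) hxy
    obtain ⟨m, rfl⟩ : ∃ m, n = m + 1 := ⟨n - 1, by omega⟩
    simp only [List.replicate_succ, List.head?_cons, Option.some.injEq] at h1
    exact h1

theorem factors_zero : factors u 0 = {[]} := by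
  ext v
  simp [factors, factor]

theorem C_zero : C u 0 = 1 := by
  unfold C
  rw [factors_zero]
  simp

theorem P_zero : P u 0 = 1 := by
  unfold P
  have : {v | v ∈ factors u 0 ∧ v.reverse = v} = {[]} := by
    ext v
    rw [factors_zero]
    constructor
    · exact fun h => h.1
    · rintro rfl
      exact ⟨rfl, rfl⟩
  rw [this]
  simp

theorem partial_sum (M : ℕ) : ∑ n ∈ Finset.range M, T u n =
    (C u M : ℤ) - 1 + 2 * M - ∑ n ∈ Finset.range M, ((P u (n + 1) : ℤ) + P u n) := by
  induction M with
  | zero => simp [C_zero]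
  | succ M ih =>
    rw [Finset.sum_range_succ, ih, Finset.sum_range_succ]
    unfold T
    push_cast
    ring

theorem sum_P (M : ℕ) : (8 : ℤ) * (M + 1) - 3 ≤
    ∑ n ∈ Finset.range (M + 1), ((P u (n + 1) : ℤ) + P u n) := by
  induction M with
  | zero =>
    have := P_ge 1 (by norm_num)
    simp only [zero_add, Finset.range_one, Finset.sum_singleton, P_zero]
    omega
  | succ M ih =>
    rw [Finset.sum_range_succ]
    have h1 := P_ge (M + 1) (by omega)
    have h2 := P_ge (M + 1 + 1) (by omega)
    push_cast
    omega

theorem sum_neg (r : ℕ) : ∑ n ∈ Finset.range (6 ^ (r + 1)), T u n ≤ -4 := by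
  rw [partial_sum]
  have h1 := C_le (r + 1)
  have h3 : 6 ≤ 6 ^ (r + 1) := by
    rw [pow_succ]
    have : 0 < 6 ^ r := by positivity
    omega
  obtain ⟨M, hM⟩ : ∃ M, 6 ^ (r + 1) = M + 1 := ⟨6 ^ (r + 1) - 1, by omega⟩
  rw [hM] at h1 h3 ⊢
  have h2 := sum_P M
  push_cast
  omega

theorem recurrent_u : Recurrent u := by
  intro i n N
  refine ⟨6 ^ (i + n + N) * 5 + i, ?_, ?_⟩
  · have : i + n + N < 6 ^ (i + n + N) := Nat.lt_pow_self (by norm_num)
    omega
  · have h : i + n + N < 6 ^ (i + n + N) := Nat.lt_pow_self (by norm_num)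
    unfold factor
    apply List.map_congr_left
    intro j hj
    rw [List.mem_range] at hj
    simp only [u]
    rw [add_assoc, tau_block _ 5 _ (by omega)]
    have : tau 5 = 0 := by
      have := tau_step 0 5 (by norm_num)
      rw [tau_zero] at this
      simpa using this
    rw [if_pos this]

theorem not_closed : ¬ ClosedUnderReversal u := by
  intro h
  obtain ⟨j, hj⟩ := h 1 2
  have t1 : tau 1 = 1 := by
    have := tau_step 0 1 (by norm_num)
    rw [tau_zero] at this
    simpa using this
  have t2 : tau 2 = 2 := by
    have := tau_step 0 2 (by norm_num)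
    rw [tau_zero] at this
    simpa using this
  have hr : List.range 2 = [0, 1] := rfl
  simp only [factor, hr, List.map_cons, List.map_nil, List.reverse_cons, List.reverse_nil,
    List.nil_append, List.cons_append, List.cons.injEq, and_true, add_zero, u] at hj
  obtain ⟨h1, h2⟩ := hj
  have e2 : (1 : ℕ) + 1 = 2 := rfl
  rw [e2, t2] at h1
  rw [t1] at h2
  have hlt := tau_lt j
  have hlt2 := tau_lt (j + 1)
  have hadj := tau_adj j
  generalize tau j = a at *
  generalize tau (j + 1) = b at *
  have h3 : a = 2 := by
    interval_cases a <;> first | rfl | (revert h1; decide)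
  subst h3
  have h4 : b ≤ 1 := by
    by_contra hb
    push Not at hb
    interval_cases b <;> (revert h2; decide)
  omega

theorem inf_pal : {v : List (Fin 4) | (∃ n, v ∈ factors u n) ∧ v.reverse = v}.Infinite := by
  apply Set.infinite_of_injective_forall_mem (f := fun n : ℕ => List.replicate n (0 : Fin 4))
  · intro m n h
    have := congrArg List.length h
    simpa using this
  · intro n
    exact ⟨⟨n, const_factor 0 n⟩, List.reverse_replicate⟩

theorem defect_nonneg : 0 ≤ defect u := by
  unfold defect
  refine le_trans ?_ (le_iSup _ 0)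
  have h : D (factor u 0 0) = 0 := by
    unfold D
    have : pals (factor u 0 0) = {[]} := by
      ext v
      simp only [pals, factor, List.range_zero, List.map_nil, List.infix_nil, Set.mem_ofPred_eq,
        Set.mem_singleton_iff]
      constructor
      · exact fun h => h.1
      · rintro rfl; simp
    rw [this]
    simp [factor]
  rw [h]
  simp

/-- There is a recurrent infinite word `u` over four letters, with infinitely many palindromic
factors and a language not closed under reversal, such that the partial sums of `T_u(n)` do not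
converge to `2 D(u)`. -/
theorem result : ∃ u : ℕ → Fin 4, Recurrent u ∧
    {v : List (Fin 4) | (∃ n, v ∈ factors u n) ∧ v.reverse = v}.Infinite ∧
    ¬ ClosedUnderReversal u ∧
    ¬ Tendsto (fun N : ℕ => (((∑ n ∈ Finset.range N, T u n : ℤ) : ℝ) : EReal)) atTop
      (𝓝 (2 * defect u)) := by
  refine ⟨u, recurrent_u, inf_pal, not_closed, ?_⟩
  intro h
  have h0 : (0 : EReal) ≤ 2 * defect u := mul_nonneg (by norm_num) defect_nonneg
  have h1 : ((-1 : ℝ) : EReal) < 2 * defect u := by
    refine lt_of_lt_of_le ?_ h0
    rw [← EReal.coe_zero]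
    exact EReal.coe_lt_coe_iff.2 (by norm_num)
  have h2 := h.eventually_const_lt h1
  rw [eventually_atTop] at h2
  obtain ⟨N, hN⟩ := h2
  have h3 := hN (6 ^ (N + 1)) (by
    have : N + 1 < 6 ^ (N + 1) := Nat.lt_pow_self (by norm_num)
    omega)
  rw [EReal.coe_lt_coe_iff] at h3
  have h4 := sum_neg N
  have h5 : ((∑ n ∈ Finset.range (6 ^ (N + 1)), T u n : ℤ) : ℝ) ≤ -4 := by exact_mod_cast h4
  linarith

end Pool.Agent.Results.MP_4402c4_co.NegativeSum
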